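import Pool.Agent.FReg.Lowest

/-!
# F-regularity of the diagonal-of-powers determinant hypersurface

For every `n ≥ 2` and every field `K` of prime characteristic `p`, the hypersurface ring
`K[X] / (P(X))` is F-regular. Here `X` is the generic `n × n` matrix and `P(X)` is the determinant
of the matrix whose columns are the diagonals of `1, X, …, X ^ (n - 1)`.
-/

namespace Pool.Agent.Results.MP_b3c285_ag.FRegular

open Pool.Agent.FReg

universe u

theorem result : ∀ n : ℕ, 2 ≤ n → ∀ p : ℕ, p.Prime → ∀ (K : Type u) [Field K] [CharP K p],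
    IsFRegular p (MvPolynomial (Fin n × Fin n) K ⧸ Ideal.span {PX n K}) := by
  intro n hn p hp K _ _
  have : Fact p.Prime := ⟨hp⟩
  obtain ⟨t, rfl⟩ : ∃ t, n = t + 2 := ⟨n - 2, by omega⟩
  exact isFRegular_PX K t p

end Pool.Agent.Results.MP_b3c285_ag.FRegular
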